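import Pool.Agent.K1H70.PR.Prim
import Pool.Agent.K1H79.GE.StmB

/-! # The primitive ray class character `𝔞 ↦ (-3 / N 𝔞)`

helper70 for helper79 (task 561). -/

set_option autoImplicit false
set_option linter.unusedSectionVars false

open NumberField

namespace Pool.Agent.K1H70.PR

open Pool.Agent.Y773 (TPos)
open Pool.Agent.Y767 (Mq Mq_cop)

/-- the quadratic character modulo `3` with complex values -/
noncomputable def chi3 : MulChar (ZMod 3) ℂ :=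
  (quadraticChar (ZMod 3)).ringHomComp (Int.castRingHom ℂ)

theorem chi3_one : chi3 1 = 1 := map_one _

theorem chi3_two : chi3 2 = -1 := by
  unfold chi3
  rw [MulChar.ringHomComp_apply]
  have : quadraticChar (ZMod 3) 2 = -1 := by decide
  rw [this]
  simp

theorem mod3 (n : ℕ) : ((n : ZMod 3) = 0 ∧ n % 3 = 0) ∨ ((n : ZMod 3) = 1 ∧ n % 3 = 1) ∨
    ((n : ZMod 3) = 2 ∧ n % 3 = 2) := by
  have h1 : ((n % 3 : ℕ) : ZMod 3) = n := ZMod.natCast_mod n 3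
  have h2 : n % 3 < 3 := Nat.mod_lt _ (by norm_num)
  interval_cases h : n % 3
  · exact Or.inl ⟨by rw [← h1]; rfl, rfl⟩
  · exact Or.inr (Or.inl ⟨by rw [← h1]; rfl, rfl⟩)
  · exact Or.inr (Or.inr ⟨by rw [← h1]; rfl, rfl⟩)

variable {K : Type} [Field K] [NumberField K]

theorem span3 : (Ideal.span {(3 : 𝓞 K)} : Ideal (𝓞 K)) = Ideal.span {((3 : ℕ) : 𝓞 K)} := by
  rw [Nat.cast_ofNat]

theorem cop3 {𝔞 : Ideal (𝓞 K)} : IsCoprime 𝔞 (Ideal.span {(3 : 𝓞 K)}) ↔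
    Ideal.absNorm 𝔞 % 3 = 1 ∨ Ideal.absNorm 𝔞 % 3 = 2 := by
  rw [span3, Pool.Agent.Y772.TW.coprime_q]
  rw [Nat.coprime_comm, (by norm_num : Nat.Prime 3).coprime_iff_not_dvd, Nat.dvd_iff_mod_eq_zero]
  omega

/-- the character of the ideals prime to `3` -/
noncomputable def F3 : Mq (Ideal.span {(3 : 𝓞 K)}) →* ℂˣ where
  toFun x := Units.mk0 (chi3 ((Ideal.absNorm (x : Ideal (𝓞 K)) : ℕ) : ZMod 3)) (by
    have h := cop3.1 (Mq_cop x)
    rcases mod3 (Ideal.absNorm (x : Ideal (𝓞 K))) with ⟨-, h1⟩ | ⟨h1, -⟩ | ⟨h1, -⟩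
    · omega
    · rw [h1, chi3_one]; exact one_ne_zero
    · rw [h1, chi3_two]; exact neg_ne_zero.2 one_ne_zero)
  map_one' := by
    apply Units.ext
    rw [Units.val_mk0, Submonoid.coe_one, map_one, Nat.cast_one, chi3_one, Units.val_one]
  map_mul' x y := by
    apply Units.ext
    rw [Units.val_mk0, Units.val_mul, Units.val_mk0, Units.val_mk0, Submonoid.coe_mul, map_mul,
      Nat.cast_mul, map_mul]

theorem F3_coe (x : Mq (Ideal.span {(3 : 𝓞 K)})) : ((F3 x : ℂˣ) : ℂ) =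
    chi3 ((Ideal.absNorm (x : Ideal (𝓞 K)) : ℕ) : ZMod 3) := rfl

theorem F3_val (x : Mq (Ideal.span {(3 : 𝓞 K)})) : F3 x = 1 ∨ F3 x = -1 := by
  have h := cop3.1 (Mq_cop x)
  rcases mod3 (Ideal.absNorm (x : Ideal (𝓞 K))) with ⟨-, h1⟩ | ⟨h1, -⟩ | ⟨h1, -⟩
  · omega
  · left
    apply Units.ext
    rw [F3_coe, h1, chi3_one, Units.val_one]
  · right
    apply Units.ext
    rw [F3_coe, h1, chi3_two, Units.val_neg, Units.val_one]

theorem bot3 : (Ideal.span {(3 : 𝓞 K)} : Ideal (𝓞 K)) ≠ ⊥ := by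
  rw [span3, Ne, Ideal.span_singleton_eq_bot]
  exact Nat.cast_ne_zero.2 (by norm_num)

theorem top3 : (Ideal.span {(3 : 𝓞 K)} : Ideal (𝓞 K)) ≠ ⊤ := by
  intro h
  have h1 := Ideal.absNorm_span_natCast (S := 𝓞 K) 3
  rw [← span3, h, Ideal.absNorm_top] at h1
  have h2 : 0 < Module.finrank ℤ (𝓞 K) := Module.finrank_pos
  have h3 := Nat.one_lt_pow h2.ne' (by norm_num : 1 < 3)
  omega

theorem F3_ray (x : 𝓞 K) (hx : IsCoprime (Ideal.span {x}) (Ideal.span {(3 : 𝓞 K)}))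
    (h1 : x - 1 ∈ Ideal.span {(3 : 𝓞 K)}) (h2 : TPos K x) :
    (F3 ⟨Ideal.span {x}, hx⟩ : ℂˣ) = 1 := by
  have hx0 : x ≠ 0 := Pool.Agent.Y773.IQ.ne_zero_of_cop top3 hx
  have h3 := Pool.Agent.Y772.TW.absNorm_tpos hx0 h2
  rw [span3] at h1
  have h4 := Pool.Agent.Y772.TW.norm_eq_of_sub h1
  rw [map_one, Int.cast_one, ← h3, Int.cast_natCast] at h4
  apply Units.ext
  rw [F3_coe, Units.val_one]
  show chi3 ((Ideal.absNorm (Ideal.span {x}) : ℕ) : ZMod 3) = 1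
  rw [h4, chi3_one]

theorem t_PR : Pool.Agent.K1H79.GE.S_PR := by
  intro F _ _
  obtain ⟨𝔣, e, ψ, h1, h2, h3, h4⟩ := exists_prim bot3 top3 (F3 (K := F)) F3_ray
  refine ⟨𝔣, e, ψ, h1, h2, fun 𝔞 => ?_, fun 𝔞 h => ?_, fun 𝔞 h => ?_⟩
  · rcases h4 𝔞 with h | ⟨x, h⟩
    · exact Or.inl h
    · right
      rw [h]
      rcases F3_val x with h5 | h5
      · left
        rw [h5, inv_one, Units.val_one]
      · right
        rw [h5, inv_neg_one, Units.val_neg, Units.val_one]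
  · have hc : IsCoprime 𝔞 (Ideal.span {(3 : 𝓞 F)}) := cop3.2 (Or.inl h)
    have h5 := h3 ⟨𝔞, hc⟩
    rw [F3_coe] at h5
    have h6 : ψ 𝔞 = chi3 ((Ideal.absNorm 𝔞 : ℕ) : ZMod 3) := h5
    rw [h6]
    rcases mod3 (Ideal.absNorm 𝔞) with ⟨-, h7⟩ | ⟨h7, -⟩ | ⟨-, h7⟩
    · omega
    · rw [h7, chi3_one]
    · omega
  · have hc : IsCoprime 𝔞 (Ideal.span {(3 : 𝓞 F)}) := cop3.2 (Or.inr h)
    have h5 := h3 ⟨𝔞, hc⟩
    rw [F3_coe] at h5
    have h6 : ψ 𝔞 = chi3 ((Ideal.absNorm 𝔞 : ℕ) : ZMod 3) := h5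
    rw [h6]
    rcases mod3 (Ideal.absNorm 𝔞) with ⟨-, h7⟩ | ⟨-, h7⟩ | ⟨h7, -⟩
    · omega
    · omega
    · rw [h7, chi3_two]

end Pool.Agent.K1H70.PR
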