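import Pool.Agent.Y773.IQ.Ray
import Pool.Agent.Y772.HG.Sgn
import Pool.Agent.R362.HkCls

/-! # Primitive ray class characters of arbitrary signature and arbitrary conductor

helper70 for helper79 (task 561).  A character of the ideals prime to `𝔮` which is trivial on the
principal ideals generated by totally positive integers `≡ 1` modulo `𝔮` is induced by a primitive
ray class character whose conductor divides `𝔮` (the conductor may be `(1)`). -/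

set_option autoImplicit false
set_option linter.unusedSectionVars false

open NumberField

namespace Pool.Agent.K1H70.PR

open Pool.Agent.Y773 (TPos)
open Pool.Agent.Y767 (Mq Mq_cop tpos_one tpos_mul tpos_of_mul)
open Pool.Agent.Y773.IQ (cop_mono cop_one exists_moving absNorm_lt)

variable {K : Type} [Field K] [NumberField K]

lemma sup_le_of_sub {x y : 𝓞 K} {I : Ideal (𝓞 K)} (h : x - y ∈ I) :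
    Ideal.span {x} ⊔ I ≤ Ideal.span {y} ⊔ I := by
  refine sup_le ?_ le_sup_right
  rw [Ideal.span_singleton_le_iff_mem]
  have : x = y + (x - y) := by ring
  rw [this]
  exact Ideal.add_mem _ (Ideal.mem_sup_left (Ideal.mem_span_singleton_self y))
    (Ideal.mem_sup_right h)

lemma sup_congr_sub {x y : 𝓞 K} {I : Ideal (𝓞 K)} (h : x - y ∈ I) :
    Ideal.span {x} ⊔ I = Ideal.span {y} ⊔ I :=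
  le_antisymm (sup_le_of_sub h) (sup_le_of_sub (by rw [← neg_sub]; exact neg_mem h))

/-- moving lemma with positivity -/
lemma exists_moving_pos {𝔠 𝔣 𝔮 : Ideal (𝓞 K)} (h : 𝔮 ≤ 𝔣) (h𝔮 : 𝔮 ≠ ⊥) (h𝔠 : 𝔠 ≠ ⊥)
    (hc : IsCoprime 𝔠 𝔣) : ∃ (y : 𝓞 K) (𝔟 : Ideal (𝓞 K)), y ≠ 0 ∧ TPos K y ∧ y - 1 ∈ 𝔣 ∧
      Ideal.span {y} = 𝔠 * 𝔟 ∧ IsCoprime 𝔟 𝔮 := by
  obtain ⟨y₀, 𝔟₀, h1, h2, h3⟩ := exists_moving h h𝔮 h𝔠 hc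
  have hN : 0 < Ideal.absNorm (𝔠 * 𝔮) :=
    Nat.pos_of_ne_zero (by rw [Ne, Ideal.absNorm_eq_zero_iff]; exact mul_ne_zero h𝔠 h𝔮)
  have hNm : ((Ideal.absNorm (𝔠 * 𝔮) : ℕ) : 𝓞 K) ∈ 𝔠 * 𝔮 := Ideal.absNorm_mem _
  obtain ⟨k, hk1, hk2⟩ := Pool.Agent.Y772.TW.exists_tpos y₀ hN
  set y : 𝓞 K := y₀ + (k : 𝓞 K) * ((Ideal.absNorm (𝔠 * 𝔮) : ℕ) : 𝓞 K) with hy
  have hyy : y - y₀ ∈ 𝔠 * 𝔮 := by
    rw [hy, add_sub_cancel_left]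
    exact Ideal.mul_mem_left _ _ hNm
  have hy0c : y₀ ∈ 𝔠 := by
    have h4 : Ideal.span {y₀} ≤ 𝔠 := by rw [h2]; exact Ideal.mul_le_left
    exact h4 (Ideal.mem_span_singleton_self _)
  have hyc : y ∈ 𝔠 := by
    have : y = y₀ + (y - y₀) := by ring
    rw [this]
    exact Ideal.add_mem _ hy0c ((Ideal.mul_le_left : 𝔠 * 𝔮 ≤ 𝔠) hyy)
  obtain ⟨𝔟, h𝔟⟩ := Ideal.dvd_iff_le.mpr ((Ideal.span_singleton_le_iff_mem 𝔠).mpr hyc)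
  refine ⟨y, 𝔟, hk2, hk1, ?_, h𝔟, ?_⟩
  · have : y - 1 = (y₀ - 1) + (y - y₀) := by ring
    rw [this]
    exact Ideal.add_mem _ h1 (h ((Ideal.mul_le_right : 𝔠 * 𝔮 ≤ 𝔮) hyy))
  · rw [Ideal.isCoprime_iff_sup_eq, ← Ideal.one_eq_top] at h3 ⊢
    apply mul_left_cancel₀ h𝔠
    rw [Ideal.mul_sup, ← h𝔟, sup_congr_sub hyy, h2, ← Ideal.mul_sup, h3]

/-- the key step: two ideals prime to `𝔮` in the same narrow ray class modulo `𝔣` -/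
lemma key_pos {𝔮 𝔣 : Ideal (𝓞 K)} (hqf : 𝔮 ≤ 𝔣) (hq : 𝔮 ≠ ⊥) (htop : 𝔮 ≠ ⊤) {𝔞 𝔟 : Ideal (𝓞 K)}
    (h𝔞 : IsCoprime 𝔞 𝔮) (h𝔟 : IsCoprime 𝔟 𝔮) {x y : 𝓞 K} (hx : x - 1 ∈ 𝔣) (hy : y - 1 ∈ 𝔣)
    (hx0 : x ≠ 0) (hxp : TPos K x) (hyp : TPos K y)
    (hab : 𝔞 * Ideal.span {x} = 𝔟 * Ideal.span {y}) :
    ∃ x' y' : 𝓞 K, x' - 1 ∈ 𝔮 ∧ TPos K x' ∧ IsCoprime (Ideal.span {y'}) 𝔮 ∧ y' - 1 ∈ 𝔣 ∧
      TPos K y' ∧ 𝔞 * Ideal.span {x'} = 𝔟 * Ideal.span {y'} := by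
  have h𝔟0 : 𝔟 ≠ ⊥ := by
    rintro rfl
    rw [Ideal.isCoprime_iff_sup_eq, bot_sup_eq] at h𝔟
    exact htop h𝔟
  obtain ⟨x', 𝔠, -, hxp', hx1, hx2, hx3⟩ := exists_moving_pos (le_refl 𝔮) hq h𝔟0 h𝔟
  have h2 : 𝔞 * 𝔠 * Ideal.span {x} = Ideal.span {x' * y} := by
    rw [← Ideal.span_singleton_mul_span_singleton, hx2, mul_right_comm, hab]
    ring
  have h3 : x' * y ∈ Ideal.span {x} := by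
    have h4 : Ideal.span {x' * y} ≤ Ideal.span {x} := by
      rw [← h2]; exact Ideal.mul_le_right
    exact h4 (Ideal.mem_span_singleton_self _)
  obtain ⟨y', hy'⟩ := Ideal.mem_span_singleton'.mp h3
  have h5 : 𝔞 * 𝔠 = Ideal.span {y'} := by
    apply mul_right_cancel₀ (b := Ideal.span {x})
    · rw [Ne, Ideal.zero_eq_bot, Ideal.span_singleton_eq_bot]; exact hx0
    · rw [h2, Ideal.span_singleton_mul_span_singleton, hy']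
  refine ⟨x', y', hx1, hxp', ?_, ?_, ?_, ?_⟩
  · rw [← h5]; exact IsCoprime.mul_left h𝔞 hx3
  · have e1 := (Ideal.Quotient.eq (I := 𝔣)).mpr hx
    have e2 := (Ideal.Quotient.eq (I := 𝔣)).mpr hy
    have e3 := (Ideal.Quotient.eq (I := 𝔣)).mpr (hqf hx1)
    rw [← Ideal.Quotient.eq]
    have e4 := congrArg (Ideal.Quotient.mk 𝔣) hy'
    rw [map_mul, map_mul, e1, e2, e3, map_one, mul_one, mul_one] at e4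
    rw [e4, map_one]
  · apply tpos_of_mul hxp
    rw [mul_comm, hy']
    exact tpos_mul hxp' hyp
  · rw [hx2, ← h5]; ring

/-- `𝔞 * 𝔟` is generated by a totally positive integer `≡ 1` modulo `𝔣` -/
def R (𝔣 : Ideal (𝓞 K)) {𝔮 : Ideal (𝓞 K)} (𝔞 : Ideal (𝓞 K)) (𝔟 : Mq 𝔮) : Prop :=
  ∃ y : 𝓞 K, y ≠ 0 ∧ TPos K y ∧ y - 1 ∈ 𝔣 ∧ Ideal.span {y} = 𝔞 * (𝔟 : Ideal (𝓞 K))

section

variable {𝔮 𝔣 : Ideal (𝓞 K)}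

lemma R.ne_bot {𝔞 : Ideal (𝓞 K)} {𝔟 : Mq 𝔮} (h : R 𝔣 𝔞 𝔟) : 𝔞 ≠ ⊥ := by
  rintro rfl
  obtain ⟨y, h0, -, -, h1⟩ := h
  rw [← Ideal.zero_eq_bot, zero_mul, Ideal.zero_eq_bot, Ideal.span_singleton_eq_bot] at h1
  exact h0 h1

lemma R.cop {𝔞 : Ideal (𝓞 K)} {𝔟 : Mq 𝔮} (h : R 𝔣 𝔞 𝔟) : IsCoprime 𝔞 𝔣 := by
  obtain ⟨y, -, -, h2, h1⟩ := h
  have h3 := cop_one h2
  rw [h1] at h3
  exact (IsCoprime.mul_left_iff.mp h3).1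

lemma R.mul {𝔞 𝔞' : Ideal (𝓞 K)} {𝔟 𝔟' : Mq 𝔮} (h : R 𝔣 𝔞 𝔟) (h' : R 𝔣 𝔞' 𝔟') :
    R 𝔣 (𝔞 * 𝔞') (𝔟 * 𝔟') := by
  obtain ⟨y, h0, h1, h2, h3⟩ := h
  obtain ⟨y', h0', h1', h2', h3'⟩ := h'
  refine ⟨y * y', mul_ne_zero h0 h0', tpos_mul h1 h1', ?_, ?_⟩
  · have : y * y' - 1 = y' * (y - 1) + (y' - 1) := by ring
    rw [this]
    exact Ideal.add_mem _ (Ideal.mul_mem_left _ _ h2) h2'
  · rw [← Ideal.span_singleton_mul_span_singleton, h3, h3', Submonoid.coe_mul]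
    ring

lemma R.ray {x : 𝓞 K} (h0 : x ≠ 0) (hx : x - 1 ∈ 𝔣) (hp : TPos K x) :
    R 𝔣 (Ideal.span {x}) (1 : Mq 𝔮) :=
  ⟨x, h0, hp, hx, by rw [Submonoid.coe_one, mul_one]⟩

lemma exists_R (hqf : 𝔮 ≤ 𝔣) (hq : 𝔮 ≠ ⊥) {𝔞 : Ideal (𝓞 K)} (h0 : 𝔞 ≠ ⊥) (hc : IsCoprime 𝔞 𝔣) :
    ∃ 𝔟 : Mq 𝔮, R 𝔣 𝔞 𝔟 := by
  obtain ⟨y, 𝔟, h1, h2, h3, h4, h5⟩ := exists_moving_pos hqf hq h0 hc
  exact ⟨⟨𝔟, h5⟩, y, h1, h2, h3, h4⟩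

lemma R.unique (hqf : 𝔮 ≤ 𝔣) (hq : 𝔮 ≠ ⊥) (htop : 𝔮 ≠ ⊤) {F : Mq 𝔮 →* ℂˣ}
    (hP : ∀ (x : 𝓞 K) (hx : IsCoprime (Ideal.span {x}) 𝔮), x - 1 ∈ 𝔣 → TPos K x →
      F ⟨Ideal.span {x}, hx⟩ = 1) {𝔞 : Ideal (𝓞 K)} {𝔟 𝔟' : Mq 𝔮} (h : R 𝔣 𝔞 𝔟) (h' : R 𝔣 𝔞 𝔟') :
    F 𝔟 = F 𝔟' := by
  have ha0 := h.ne_bot
  obtain ⟨y, h0, h1, h2, h3⟩ := h
  obtain ⟨y', h0', h1', h2', h3'⟩ := h'
  have hab : (𝔟 : Ideal (𝓞 K)) * Ideal.span {y'} = (𝔟' : Ideal (𝓞 K)) * Ideal.span {y} := by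
    rw [h3, h3']; ring
  obtain ⟨x1, y1, g1, g2, g3, g4, g5, g6⟩ := key_pos hqf hq htop (Mq_cop 𝔟) (Mq_cop 𝔟') h2' h2 h0'
    h1' h1 hab
  have hx1 : IsCoprime (Ideal.span {x1}) 𝔮 := cop_one g1
  have e1 := hP x1 hx1 (hqf g1) g2
  have e2 := hP y1 g3 g4 g5
  have e3 : 𝔟 * ⟨Ideal.span {x1}, hx1⟩ = 𝔟' * ⟨Ideal.span {y1}, g3⟩ := by
    apply Subtype.ext
    rw [Submonoid.coe_mul, Submonoid.coe_mul]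
    exact g6
  have e4 := congrArg F e3
  rwa [map_mul, map_mul, e1, e2, mul_one, mul_one] at e4

lemma R.inv {F : Mq 𝔮 →* ℂˣ}
    (hP : ∀ (x : 𝓞 K) (hx : IsCoprime (Ideal.span {x}) 𝔮), x - 1 ∈ 𝔣 → TPos K x →
      F ⟨Ideal.span {x}, hx⟩ = 1) {𝔞 𝔟 : Mq 𝔮} (h : R 𝔣 (𝔞 : Ideal (𝓞 K)) 𝔟) :
    F 𝔞 * F 𝔟 = 1 := by
  obtain ⟨y, h0, h1, h2, h3⟩ := h
  have hy : IsCoprime (Ideal.span {y}) 𝔮 := by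
    rw [h3]; exact IsCoprime.mul_left (Mq_cop 𝔞) (Mq_cop 𝔟)
  rw [← map_mul, ← hP y hy h2 h1]
  congr 1
  apply Subtype.ext
  rw [Submonoid.coe_mul]
  exact h3.symm

end

open Classical in
/-- the extended character -/
noncomputable def psi {𝔮 𝔣 : Ideal (𝓞 K)} (hqf : 𝔮 ≤ 𝔣) (hq : 𝔮 ≠ ⊥) (htop : 𝔮 ≠ ⊤)
    (F : Mq 𝔮 →* ℂˣ) (hP : ∀ (x : 𝓞 K) (hx : IsCoprime (Ideal.span {x}) 𝔮), x - 1 ∈ 𝔣 → TPos K x →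
      F ⟨Ideal.span {x}, hx⟩ = 1) : Ideal (𝓞 K) →*₀ ℂ where
  toFun 𝔞 := if h : ∃ 𝔟 : Mq 𝔮, R 𝔣 𝔞 𝔟 then (((F h.choose)⁻¹ : ℂˣ) : ℂ) else 0
  map_zero' := by
    rw [dif_neg]
    rintro ⟨𝔟, h⟩
    exact h.ne_bot rfl
  map_one' := by
    have h1 : R 𝔣 (1 : Ideal (𝓞 K)) (1 : Mq 𝔮) := by
      have := R.ray (𝔮 := 𝔮) (𝔣 := 𝔣) (x := (1 : 𝓞 K)) one_ne_zero (by rw [sub_self]; exact zero_mem _)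
        tpos_one
      rwa [Ideal.span_singleton_one, ← Ideal.one_eq_top] at this
    have h : ∃ 𝔟 : Mq 𝔮, R 𝔣 (1 : Ideal (𝓞 K)) 𝔟 := ⟨1, h1⟩
    rw [dif_pos h, h.choose_spec.unique hqf hq htop hP h1, map_one, inv_one, Units.val_one]
  map_mul' 𝔞 𝔟 := by
    by_cases h : ∃ 𝔠 : Mq 𝔮, R 𝔣 (𝔞 * 𝔟) 𝔠
    · have h0 : 𝔞 * 𝔟 ≠ ⊥ := h.choose_spec.ne_bot
      have hc := h.choose_spec.cop
      have h1 := exists_R hqf hq (left_ne_zero_of_mul h0) (IsCoprime.mul_left_iff.mp hc).1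
      have h2 := exists_R hqf hq (right_ne_zero_of_mul h0) (IsCoprime.mul_left_iff.mp hc).2
      rw [dif_pos h, dif_pos h1, dif_pos h2,
        h.choose_spec.unique hqf hq htop hP (h1.choose_spec.mul h2.choose_spec), map_mul, mul_inv,
        Units.val_mul]
    · rw [dif_neg h]
      by_cases h1 : ∃ 𝔠 : Mq 𝔮, R 𝔣 𝔞 𝔠
      · by_cases h2 : ∃ 𝔠 : Mq 𝔮, R 𝔣 𝔟 𝔠
        · exact absurd ⟨_, h1.choose_spec.mul h2.choose_spec⟩ h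
        · rw [dif_neg h2, mul_zero]
      · rw [dif_neg h1, zero_mul]

section

variable {𝔮 𝔣 : Ideal (𝓞 K)} (hqf : 𝔮 ≤ 𝔣) (hq : 𝔮 ≠ ⊥) (htop : 𝔮 ≠ ⊤)
    (F : Mq 𝔮 →* ℂˣ) (hP : ∀ (x : 𝓞 K) (hx : IsCoprime (Ideal.span {x}) 𝔮), x - 1 ∈ 𝔣 → TPos K x →
      F ⟨Ideal.span {x}, hx⟩ = 1)

open Classical in
lemma psi_of_R {𝔞 : Ideal (𝓞 K)} {𝔟 : Mq 𝔮} (h : R 𝔣 𝔞 𝔟) :
    psi hqf hq htop F hP 𝔞 = (((F 𝔟)⁻¹ : ℂˣ) : ℂ) := by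
  change (if h : ∃ 𝔟 : Mq 𝔮, R 𝔣 𝔞 𝔟 then (((F h.choose)⁻¹ : ℂˣ) : ℂ) else 0) = _
  have h1 : ∃ 𝔟 : Mq 𝔮, R 𝔣 𝔞 𝔟 := ⟨𝔟, h⟩
  rw [dif_pos h1, h1.choose_spec.unique hqf hq htop hP h]

open Classical in
lemma psi_of_not {𝔞 : Ideal (𝓞 K)} (h : ¬ ∃ 𝔟 : Mq 𝔮, R 𝔣 𝔞 𝔟) :
    psi hqf hq htop F hP 𝔞 = 0 := by
  change (if h : ∃ 𝔟 : Mq 𝔮, R 𝔣 𝔞 𝔟 then (((F h.choose)⁻¹ : ℂˣ) : ℂ) else 0) = _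
  rw [dif_neg h]

lemma psi_supp {𝔞 : Ideal (𝓞 K)} (h0 : 𝔞 ≠ ⊥) :
    psi hqf hq htop F hP 𝔞 ≠ 0 ↔ IsCoprime 𝔞 𝔣 := by
  constructor
  · intro h
    by_contra hc
    refine h (psi_of_not hqf hq htop F hP ?_)
    rintro ⟨𝔟, hb⟩
    exact hc hb.cop
  · intro hc
    obtain ⟨𝔟, hb⟩ := exists_R hqf hq h0 hc
    rw [psi_of_R hqf hq htop F hP hb]
    exact Units.ne_zero _

lemma psi_coe (x : Mq 𝔮) : psi hqf hq htop F hP (x : Ideal (𝓞 K)) = ((F x : ℂˣ) : ℂ) := by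
  obtain ⟨𝔟, hb⟩ := exists_R hqf hq (Pool.Agent.Y767.Mq_ne_bot htop x) (cop_mono hqf (Mq_cop x))
  rw [psi_of_R hqf hq htop F hP hb]
  rw [← eq_inv_of_mul_eq_one_left (hb.inv hP)]

lemma psi_val (𝔞 : Ideal (𝓞 K)) : psi hqf hq htop F hP 𝔞 = 0 ∨
    ∃ x : Mq 𝔮, psi hqf hq htop F hP 𝔞 = (((F x)⁻¹ : ℂˣ) : ℂ) := by
  by_cases h : ∃ 𝔟 : Mq 𝔮, R 𝔣 𝔞 𝔟
  · obtain ⟨𝔟, hb⟩ := h
    exact Or.inr ⟨𝔟, psi_of_R hqf hq htop F hP hb⟩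
  · exact Or.inl (psi_of_not hqf hq htop F hP h)

lemma psi_ray {x : 𝓞 K} (h0 : x ≠ 0) (hx : x - 1 ∈ 𝔣) (hp : TPos K x) :
    psi hqf hq htop F hP (Ideal.span {x}) = 1 := by
  rw [psi_of_R hqf hq htop F hP (R.ray h0 hx hp), map_one, inv_one, Units.val_one]

end

/-- **every narrow ray class character modulo `𝔮` is induced by a primitive one** -/
theorem exists_prim {𝔮 : Ideal (𝓞 K)} (hq : 𝔮 ≠ ⊥) (htop : 𝔮 ≠ ⊤) (F : Mq 𝔮 →* ℂˣ)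
    (hF : ∀ (x : 𝓞 K) (hx : IsCoprime (Ideal.span {x}) 𝔮), x - 1 ∈ 𝔮 → TPos K x →
      F ⟨Ideal.span {x}, hx⟩ = 1) :
    ∃ (𝔣 : Ideal (𝓞 K)) (e : InfinitePlace K → ℕ) (ψ : Ideal (𝓞 K) →*₀ ℂ),
      Pool.Agent.R362.HL.IsRay 𝔣 e ψ ∧ 𝔣 ∣ 𝔮 ∧
      (∀ x : Mq 𝔮, ψ (x : Ideal (𝓞 K)) = ((F x : ℂˣ) : ℂ)) ∧
      ∀ 𝔞, ψ 𝔞 = 0 ∨ ∃ x : Mq 𝔮, ψ 𝔞 = (((F x)⁻¹ : ℂˣ) : ℂ) := by
  obtain ⟨P, hP⟩ : ∃ P : Set (Ideal (𝓞 K)), ∀ 𝔣, 𝔣 ∈ P ↔ (𝔣 ∣ 𝔮 ∧ ∀ (x : 𝓞 K)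
    (hx : IsCoprime (Ideal.span {x}) 𝔮), x - 1 ∈ 𝔣 → TPos K x → F ⟨Ideal.span {x}, hx⟩ = 1) :=
    ⟨{𝔣 | _}, fun 𝔣 => Iff.rfl⟩
  have hne : P.Nonempty := ⟨𝔮, (hP 𝔮).mpr ⟨dvd_refl _, hF⟩⟩
  obtain ⟨𝔣, h𝔣, hmin⟩ := (measure (fun 𝔣 : Ideal (𝓞 K) => Ideal.absNorm 𝔣)).wf.has_min P hne
  obtain ⟨hd, h1⟩ := (hP 𝔣).mp h𝔣
  have hqf := Ideal.dvd_iff_le.mp hd
  have hfb : 𝔣 ≠ ⊥ := by
    rintro rfl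
    exact hq (le_bot_iff.mp hqf)
  obtain ⟨e, he1, he2, he3⟩ := Pool.Agent.Y772.G.t_sig K 𝔣 (psi hqf hq htop F h1) hfb
    (fun x h0 hx hp => psi_ray hqf hq htop F h1 h0 hx hp)
  refine ⟨𝔣, e, psi hqf hq htop F h1, ⟨hfb, he1, he2, fun 𝔞 h0 => psi_supp hqf hq htop F h1 h0, ?_,
    ?_⟩, hd, psi_coe hqf hq htop F h1, psi_val hqf hq htop F h1⟩
  · intro x h0 hx
    rw [he3 x h0 hx, Pool.Agent.R362.HL.signs_eq he2]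
  · intro 𝔤 hg hgne
    have hnP : ¬ 𝔤 ∈ P := fun hP' => hmin 𝔤 hP' (absNorm_lt hfb hg hgne)
    rw [hP, not_and] at hnP
    have h2 := hnP (hg.trans hd)
    push Not at h2
    obtain ⟨x, hx, hx1, hx2, hx3⟩ := h2
    refine ⟨x, hx1, hx2, cop_mono hqf hx, ?_⟩
    rw [psi_coe hqf hq htop F h1 ⟨Ideal.span {x}, hx⟩]
    intro h3
    exact hx3 (Units.ext h3)

end Pool.Agent.K1H70.PR
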